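import Pool.Agent.helper36.V3.SpecP

/-!
# Project v3:, module ST1: chart and tower near the point `1/4` of the first cylinder, for one datum
-/

set_option autoImplicit false

open Complex Metric Set Filter Topology MeasureTheory MPS

noncomputable section

namespace V3S

theorem ST1_exp_near (w : ℂ) (hw : ‖w‖ ≤ 1 / 2) : ‖Complex.exp w - 1‖ ≤ 2 * ‖w‖ := by
  have h1 := Complex.norm_exp_sub_one_sub_id_le (x := w) (by linarith)
  have h2 : ‖Complex.exp w - 1‖ ≤ ‖Complex.exp w - 1 - w‖ + ‖w‖ := by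
    have h3 := norm_add_le (Complex.exp w - 1 - w) w
    rwa [sub_add_cancel] at h3
  have h3 : ‖w‖ ^ 2 ≤ ‖w‖ := by
    have := norm_nonneg w
    nlinarith
  linarith

/-- bounds for `u`. -/
theorem ST1_u (u : ℂ) (hu : ‖u - 1 / 4‖ ≤ 1 / 16) : 3 / 16 ≤ ‖u‖ ∧ ‖u‖ ≤ 5 / 16 := by
  have h14 : ‖(1 / 4 : ℂ)‖ = 1 / 4 := by
    rw [norm_div, norm_one]; norm_num
  constructor
  · have h1 := norm_sub_norm_le (1 / 4 : ℂ) (1 / 4 - u)
    rw [h14, norm_sub_rev (1 / 4 : ℂ) u] at h1
    have h2 : (1 / 4 : ℂ) - (1 / 4 - u) = u := by ring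
    rw [h2] at h1
    linarith
  · have h1 := norm_add_le (u - 1 / 4) (1 / 4)
    rw [sub_add_cancel, h14] at h1
    linarith

theorem ST1_log (x : ℝ) (h0 : 0 < x) (hx : x ≤ 5 / 16) : Real.log x ≤ -(116 / 100) := by
  rw [Real.log_le_iff_le_exp h0]
  refine hx.trans ?_
  have h1 : Real.exp (116 / 100) ≤ 16 / 5 := by
    have h2 : (116 / 100 : ℝ) = 1 + 16 / 100 := by norm_num
    rw [h2, Real.exp_add]
    have h3 := Real.exp_one_lt_d9
    have h4 : Real.exp (16 / 100) ≤ 1174 / 1000 := by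
      have h5 := Real.exp_bound' (x := 16 / 100) (by norm_num) (by norm_num) (n := 4) (by norm_num)
      refine h5.trans ?_
      norm_num [Finset.sum_range_succ, Nat.factorial]
    have h5 := Real.exp_pos (16 / 100)
    nlinarith
  rw [Real.exp_neg]
  rw [le_inv_comm₀ (by norm_num) (Real.exp_pos _)]
  refine h1.trans ?_
  norm_num

theorem ST1_exp320 : (15 / 32 : ℝ) < (1 - 1 / 3) * Real.exp (-(3 * (1 / 20))) := by
  have h1 := Real.add_one_le_exp (-(3 * (1 / 20)) : ℝ)
  linarith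

/-- the translated map `w ↦ F (u exp w)` in terms of `hat`. -/
theorem ST1_tr (u : ℂ) (hu : u ≠ 0) (w : ℂ) :
    Complex.exp (Complex.log u + w) = u * Complex.exp w := by
  rw [Complex.exp_add, Complex.exp_log hu]

/-- membership of `u exp w` in discs. -/
theorem ST1_mem (u w : ℂ) (hu : ‖u‖ ≤ 5 / 16) (hw : ‖w‖ ≤ 1 / 4) :
    ‖u * Complex.exp w‖ < 15 / 32 ∧ ‖u * Complex.exp w - u‖ ≤ ‖w‖ := by
  have h1 := ST1_exp_near w (by linarith)
  have h2 : ‖u * Complex.exp w - u‖ ≤ 5 / 8 * ‖w‖ := by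
    have h3 : u * Complex.exp w - u = u * (Complex.exp w - 1) := by ring
    rw [h3, norm_mul]
    have h4 := norm_nonneg w
    have h5 := norm_nonneg u
    have h6 := norm_nonneg (Complex.exp w - 1)
    nlinarith
  have h4 := norm_nonneg w
  constructor
  · have h3 := norm_add_le (u * Complex.exp w - u) u
    rw [sub_add_cancel] at h3
    by_cases hw0 : ‖w‖ < 1 / 4
    · linarith
    · have hw1 : ‖w‖ = 1 / 4 := le_antisymm hw (not_lt.1 hw0)
      have h7 : 5 / 16 + 5 / 8 * (1 / 4 : ℝ) = 15 / 32 := by norm_num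
      have h8 := Complex.norm_exp_sub_one_sub_id_le (x := w) (by linarith)
      have h9 : ‖Complex.exp w - 1‖ ≤ ‖w‖ ^ 2 + ‖w‖ := by
        have h10 := norm_add_le (Complex.exp w - 1 - w) w
        rw [sub_add_cancel] at h10
        linarith
      have h11 : ‖u * Complex.exp w - u‖ ≤ 5 / 16 * (5 / 16) := by
        have h3' : u * Complex.exp w - u = u * (Complex.exp w - 1) := by ring
        rw [h3', norm_mul]
        rw [hw1] at h9
        have h5 := norm_nonneg u
        have h6 := norm_nonneg (Complex.exp w - 1)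
        have h12 : ‖Complex.exp w - 1‖ ≤ 5 / 16 := by
          refine h9.trans ?_
          norm_num
        exact mul_le_mul hu h12 h6 (by norm_num)
      linarith
  · linarith

theorem ST1 (hSUD : SUD_stmt) (hST2 : ST2_stmt) (hP1W : PPS.P1W_stmt) (hP1A : PPS.P1A_stmt)
    (hPT1 : PPS.PT1_stmt) (hNI : MPS.NI_stmt) (hKO3 : V3.KO3_stmt) : ST1_stmt := by
  obtain ⟨K, hK1, hK⟩ := hKO3 (1 / 3) (by norm_num) (by norm_num)
  have hK0 : 0 < K := by linarith
  have hr0 : 0 < 1 / (1000 * K) := by positivity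
  refine ⟨1 / (1000 * K), hr0, ?_⟩
  set r : ℝ := 1 / (1000 * K) with hrdef
  have hrK : r * K = 1 / 1000 := by
    rw [hrdef]; field_simp
  have hr1 : r ≤ 1 / 1000 := by nlinarith
  intro n ra Cf
  by_cases hnr : 2 ≤ n ∧ 0 < ra
  swap
  · exact ⟨1, one_pos, 1, one_pos, fun D hD => absurd ⟨hD.hn, hD.ra0⟩ hnr⟩
  obtain ⟨hn, hra⟩ := hnr
  obtain ⟨R₀, hR₀, ε₁, hε₁, hP⟩ := hP1W n (1 / 20) ra hn (by norm_num) le_rfl hra
  set R : ℝ := max R₀ (ra + 1) with hRdef
  have hR1 : R₀ ≤ R := le_max_left _ _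
  have hR2 : ra < R := lt_of_lt_of_le (by linarith) (le_max_right R₀ (ra + 1))
  set E : ℝ := |2 * Real.pi + 4 * Cf R| + 1 with hEdef
  have hE1 : 1 ≤ E := by
    have := abs_nonneg (2 * Real.pi + 4 * Cf R)
    linarith
  have hE0 : 0 < E := by linarith
  have hC0 : 0 < 1 + 4 * E + K ^ 2 := by positivity
  refine ⟨1 + 4 * E + K ^ 2, hC0, min (min (ε₁ / E) (1 / 409600 / E)) (r / (1 + 4 * E + K ^ 2)),
    lt_min (lt_min (by positivity) (by positivity)) (by positivity), ?_⟩
  set C : ℝ := 1 + 4 * E + K ^ 2 with hCdef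
  intro D hD hlam u hu
  have hl1 : ‖D.lam‖ ≤ ε₁ / E := hlam.trans ((min_le_left _ _).trans (min_le_left _ _))
  have hl2 : ‖D.lam‖ ≤ 1 / 409600 / E := hlam.trans ((min_le_left _ _).trans (min_le_right _ _))
  have hl3 : ‖D.lam‖ ≤ r / C := hlam.trans (min_le_right _ _)
  rw [le_div_iff₀ hE0] at hl1 hl2
  rw [le_div_iff₀ hC0] at hl3
  have hl0 := norm_nonneg D.lam
  have hEb : Eb Cf R D ≤ E * ‖D.lam‖ := by
    unfold Eb
    refine mul_le_mul_of_nonneg_right ?_ hl0
    have := le_abs_self (2 * Real.pi + 4 * Cf R)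
    linarith
  have hSU := hSUD n ra Cf D hD R hR2
  have hEb1 : Eb Cf R D ≤ ε₁ := by linarith
  obtain ⟨G1, hG1⟩ := hP D.k D.f D.b D.g D.ψ R (Eb Cf R D) hSU hR1 hEb1
  have hH := hG1 D.k le_rfl
  obtain ⟨Φ₁, hΦd, hΦ1, hΦ2⟩ := hST2 n D.k D.f D.b D.g D.ψ ra R (Eb Cf R D) (1 / 20) G1 D.lam hH
    (by norm_num; linarith) hD.hrho
  obtain ⟨hA1, hA2, -⟩ := hP1A n D.k D.f D.b D.g D.ψ ra R (Eb Cf R D) (1 / 20) (fun _ => 3 * (1 / 20)) G1 D.k hH
  -- facts about the point
  obtain ⟨hu1, hu2⟩ := ST1_u u hu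
  have hu0 : 0 < ‖u‖ := by linarith
  have hune : u ≠ 0 := norm_pos_iff.1 hu0
  have hlog := ST1_log ‖u‖ hu0 hu2
  have hre : ∀ w : ℂ, ‖w‖ < 1 / 1000 → (Complex.log u + w).re < -(3 * (1 / 20) + 1) := by
    intro w hw
    rw [Complex.add_re, Complex.log_re]
    have := (Complex.re_le_norm w)
    linarith
  have h320 := ST1_exp320
  have hpn := (hD.mx 0).pn
  have hsg : D.sg ≠ 0 := hpn.der
  have hψd : DifferentiableOn ℂ (D.ψ 0) (ball 0 1) := hpn.diff
  have hψi : InjOn (D.ψ 0) (ball 0 1) := hNI D.k D.b D.g 0 (D.ψ 0) 1 hpn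
  -- the chart
  have hexpd : ∀ w : ℂ, HasDerivAt (fun w : ℂ => u * Complex.exp w) (u * Complex.exp w) w := fun w =>
    (Complex.hasDerivAt_exp w).const_mul u
  have hmem1 : ∀ w : ℂ, ‖w‖ ≤ 1 / 4 → u * Complex.exp w ∈ ball (0 : ℂ) 1 := by
    intro w hw
    rw [mem_ball_zero_iff]
    have := (ST1_mem u w hu2 hw).1
    linarith
  have hmem2 : ∀ w : ℂ, ‖w‖ ≤ 1 / 4 → u * Complex.exp w ∈ ball (0 : ℂ) (Real.exp (-(3 * (1 / 20)))) := by
    intro w hw
    rw [mem_ball_zero_iff]
    have := (ST1_mem u w hu2 hw).1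
    have := Real.exp_pos (-(3 * (1 / 20)) : ℝ)
    linarith
  have hχd : ∀ w : ℂ, ‖w‖ ≤ 1 / 4 → HasDerivAt (fun w : ℂ => D.ψ 0 (u * Complex.exp w))
      (deriv (D.ψ 0) (u * Complex.exp w) * (u * Complex.exp w)) w := by
    intro w hw
    exact HasDerivAt.comp w (hψd.differentiableAt (isOpen_ball.mem_nhds (hmem1 w hw))).hasDerivAt (hexpd w)
  have hGd : ∀ q ≤ D.k, ∀ w : ℂ, ‖w‖ ≤ 1 / 4 → HasDerivAt (fun w : ℂ => G1 q (u * Complex.exp w))
      (deriv (G1 q) (u * Complex.exp w) * (u * Complex.exp w)) w := by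
    intro q hq w hw
    exact HasDerivAt.comp w ((hA1 q hq).differentiableAt (isOpen_ball.mem_nhds (hmem2 w hw))).hasDerivAt
      (hexpd w)
  have hb2 : ∀ w ∈ ball (0 : ℂ) (2 * r), ‖w‖ ≤ 1 / 4 := by
    intro w hw
    rw [mem_ball_zero_iff] at hw
    linarith
  have hb1 : ∀ w ∈ ball (0 : ℂ) r, ‖w‖ ≤ 1 / 4 := by
    intro w hw
    rw [mem_ball_zero_iff] at hw
    linarith
  have hb1' : ∀ w ∈ ball (0 : ℂ) r, ‖w‖ < 1 / 1000 := by
    intro w hw
    rw [mem_ball_zero_iff] at hw
    linarith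
  have hnat : IsNat D.b D.g (fun w : ℂ => D.ψ 0 (u * Complex.exp w)) (ball 0 (2 * r)) := by
    refine ⟨?_, ?_, ?_⟩
    · intro w hw
      exact (hχd w (hb2 w hw)).differentiableAt.differentiableWithinAt
    · intro w hw j
      exact hpn.av _ (hmem1 w (hb2 w hw)) (mul_ne_zero hune (Complex.exp_ne_zero w)) j
    · intro w hw
      rw [(hχd w (hb2 w hw)).deriv]
      have h1 := hpn.eq _ (hmem1 w (hb2 w hw)) (mul_ne_zero hune (Complex.exp_ne_zero w))
      rw [← h1]
      ring
  have hG0 : G1 0 = D.ψ 0 := hH.sys.g0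
  have hmain : Ctl D (D.xx (D.ψ 0 u)) r C (fun w => D.ψ 0 (u * Complex.exp w))
      (fun q w => G1 q (u * Complex.exp w)) (fun w => Φ₁ (Complex.log u + w) - Complex.log u) := by
    refine ⟨hnat, ?_, ?_, ⟨?_, ?_, ?_⟩, ?_, ?_, ?_, ?_, ?_⟩
    · -- val
      change D.ψ 0 (u * Complex.exp 0) = D.b 0 + D.sg * ((D.ψ 0 u - D.b 0) / D.sg)
      rw [mul_div_cancel₀ _ hsg, Complex.exp_zero, mul_one]
      ring
    · -- aff
      intro w hw
      have hw4 := hb2 w hw
      rw [(hχd w hw4).deriv, (hχd 0 (by norm_num)).deriv, Complex.exp_zero, mul_one]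
      have hsub : ball u (1 / 2) ⊆ ball (0 : ℂ) 1 := by
        intro z hz
        rw [mem_ball, dist_eq_norm] at hz
        rw [mem_ball_zero_iff]
        have h1 := norm_add_le (z - u) u
        rw [sub_add_cancel] at h1
        linarith
      obtain ⟨-, h2⟩ := hK (D.ψ 0) u (1 / 2) (by norm_num) (hψd.mono hsub) (hψi.mono hsub)
      have h3 := (ST1_mem u w hu2 hw4).2
      have hw2 : ‖w‖ < 2 * r := by rwa [mem_ball_zero_iff] at hw
      obtain ⟨h4, -, -, h5⟩ := h2 (u * Complex.exp w) (by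
        rw [mem_ball, dist_eq_norm]
        linarith)
      have h6 := ST1_exp_near w (by linarith)
      set a : ℂ := deriv (D.ψ 0) (u * Complex.exp w) with ha
      set c : ℂ := deriv (D.ψ 0) u with hc
      have h7 : a * (u * Complex.exp w) - c * u = u * (a * (Complex.exp w - 1)) + u * (a - c) := by ring
      rw [h7]
      have h8 : ‖u * (a * (Complex.exp w - 1))‖ ≤ ‖u‖ * ((K * ‖c‖) * (2 * ‖w‖)) := by
        rw [norm_mul, norm_mul]
        gcongr
      have h9 : ‖u * (a - c)‖ ≤ ‖u‖ * (K * (‖w‖ / (1 / 2)) * ‖c‖) := by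
        rw [norm_mul]
        refine mul_le_mul_of_nonneg_left (h5.trans ?_) (norm_nonneg _)
        gcongr
      refine (norm_add_le _ _).trans ((add_le_add h8 h9).trans ?_)
      rw [norm_mul]
      have h10 : ‖u‖ * ((K * ‖c‖) * (2 * ‖w‖)) + ‖u‖ * (K * (‖w‖ / (1 / 2)) * ‖c‖) =
          (4 * K * ‖w‖) * (‖c‖ * ‖u‖) := by ring
      rw [h10]
      have h11 : 4 * K * ‖w‖ ≤ 1 / 10 := by
        have : K * ‖w‖ ≤ K * (2 * r) := mul_le_mul_of_nonneg_left hw2.le hK0.le
        nlinarith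
      have h12 : 0 ≤ ‖c‖ * ‖u‖ := by positivity
      have := mul_le_mul_of_nonneg_right h11 h12
      linarith
    · -- nat0
      have h1 : (fun w : ℂ => G1 0 (u * Complex.exp w)) = fun w : ℂ => D.ψ 0 (u * Complex.exp w) := by
        rw [hG0]
      change IsNat D.b D.g (fun w : ℂ => G1 0 (u * Complex.exp w)) (ball 0 r)
      rw [h1]
      have hsub : ball (0 : ℂ) r ⊆ ball 0 (2 * r) := ball_subset_ball (by linarith)
      exact ⟨hnat.diff.mono hsub, fun w hw => hnat.av w (hsub hw), fun w hw => hnat.eq w (hsub hw)⟩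
    · -- diff
      intro q hq w hw
      exact (hGd q hq w (hb1 w hw)).differentiableAt.differentiableWithinAt
    · -- rel
      intro q hq w hw
      exact hH.sys.rel q hq _ (hmem2 w (hb1 w hw))
    · -- g0
      intro w hw
      change G1 0 (u * Complex.exp w) = D.ψ 0 (u * Complex.exp w)
      rw [hG0]
    · -- sum
      intro w hw
      have hw3 := hre w (hb1' w hw)
      have hGW : ∀ q, (fun w : ℂ => G1 q (u * Complex.exp w)) = fun w => GW G1 q (Complex.log u + w) := by
        intro q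
        funext x
        change _ = G1 q (Complex.exp (Complex.log u + x))
        rw [ST1_tr u hune]
      have htau : ∀ q, tau D.b D.g (fun q w => G1 q (u * Complex.exp w)) q w =
          tau D.b D.g (GW G1) q (Complex.log u + w) := by
        intro q
        unfold tau
        have h1 : deriv (fun w : ℂ => G1 q (u * Complex.exp w)) w = deriv (GW G1 q) (Complex.log u + w) := by
          rw [hGW q, deriv_comp_const_add]
        have h2 : G1 q (u * Complex.exp w) = GW G1 q (Complex.log u + w) := congrFun (hGW q) w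
        change deriv (fun w : ℂ => G1 q (u * Complex.exp w)) w ^ 2 * BB D.b D.g (G1 q (u * Complex.exp w)) = _
        rw [h1, h2]
      have hlev : ∀ q, PPS.lev D.b D.g (fun q w => G1 q (u * Complex.exp w)) q w =
          PPS.lev D.b D.g (GW G1) q (Complex.log u + w) := by
        intro q
        unfold PPS.lev
        rw [htau, htau]
      rw [Finset.sum_congr rfl fun q _ => hlev q]
      have h1 := hPT1 n D.k D.f D.b D.g D.ψ ra R (Eb Cf R D) (1 / 20) (fun _ => 3 * (1 / 20)) G1 D.k hH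
        D.k (by have := hD.hk; omega) le_rfl (Complex.log u + w) (-(Complex.log u + w).re - 3 * (1 / 20))
        (by linarith) (by ring)
      refine (h1.2.1 (by linarith)).trans ?_
      have h2 : Real.exp (1 - (-(Complex.log u + w).re - 3 * (1 / 20))) ≤ 1 := by
        rw [Real.exp_le_one_iff]
        linarith
      have h3 : 4 * Eb Cf R D * Real.exp (1 - (-(Complex.log u + w).re - 3 * (1 / 20))) ≤
          4 * (E * ‖D.lam‖) * 1 := by
        have h4 := Real.exp_pos (1 - (-(Complex.log u + w).re - 3 * (1 / 20)))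
        have h5 : 0 ≤ E * ‖D.lam‖ := by positivity
        refine mul_le_mul (by linarith) h2 h4.le (by positivity)
      refine h3.trans ?_
      have h6 : C * ‖D.lam‖ = ‖D.lam‖ + 4 * (E * ‖D.lam‖) + K ^ 2 * ‖D.lam‖ := by
        rw [hCdef]; ring
      rw [h6]
      have h7 : 0 ≤ K ^ 2 * ‖D.lam‖ := by positivity
      linarith
    · -- phd
      intro w hw
      have hw3 := hre w (hb1' w hw)
      have h1 : Complex.log u + w ∈ HP (4 * (1 / 20)) := by
        change (Complex.log u + w).re < -(4 * (1 / 20))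
        linarith
      have hopen : IsOpen (HP (4 * (1 / 20))) := isOpen_lt Complex.continuous_re continuous_const
      have h2 : DifferentiableAt ℂ Φ₁ (Complex.log u + w) := hΦd.differentiableAt (hopen.mem_nhds h1)
      have h3 : DifferentiableAt ℂ (fun w : ℂ => Φ₁ (Complex.log u + w)) w :=
        DifferentiableAt.comp w h2 (differentiableAt_id.const_add _)
      exact (h3.sub_const _).differentiableWithinAt
    · -- phi
      intro w hw
      have hw3 := hre w (hb1' w hw)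
      have h1 : Complex.log u + w ∈ HP (4 * (1 / 20)) := by
        change (Complex.log u + w).re < -(4 * (1 / 20))
        linarith
      have h2 : Complex.log u + w ∈ HP (3 * (1 / 20) + 1) := hw3
      have h3 := hΦ2 _ h2
      have h4 : ‖Φ₁ (Complex.log u + w) - Complex.log u - w‖ ≤ C * ‖D.lam‖ := by
        have h5 : Φ₁ (Complex.log u + w) - Complex.log u - w =
            (Φ₁ (Complex.log u + w) - (Complex.log u + w - D.lam)) - D.lam := by ring
        rw [h5]
        refine (norm_sub_le _ _).trans ?_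
        have h6 : C * ‖D.lam‖ = ‖D.lam‖ + 4 * (E * ‖D.lam‖) + K ^ 2 * ‖D.lam‖ := by
          rw [hCdef]; ring
        rw [h6]
        have h7 : 0 ≤ K ^ 2 * ‖D.lam‖ := by positivity
        linarith
      refine ⟨?_, h4, ?_⟩
      · rw [mem_ball_zero_iff] at hw ⊢
        have h5 := norm_add_le (Φ₁ (Complex.log u + w) - Complex.log u - w) w
        rw [sub_add_cancel] at h5
        have h6 : C * ‖D.lam‖ ≤ r := by linarith
        linarith
      · rw [Complex.exp_sub, Complex.exp_log hune, mul_div_cancel₀ _ hune]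
        have h5 := (hΦ1 _ h1).2
        have h6 : GW G1 D.k (Complex.log u + w) = G1 D.k (Complex.exp (Complex.log u + w)) := rfl
        rw [h6, ST1_tr u hune] at h5
        exact h5
    · -- kc
      intro q hq1 hqk
      have h0 : ‖(0 : ℂ)‖ ≤ 1 / 4 := by norm_num
      have h1 : deriv (fun w : ℂ => G1 q (u * Complex.exp w)) 0 = deriv (G1 q) u * u := by
        rw [(hGd q hqk 0 h0).deriv, Complex.exp_zero, mul_one]
      change ‖G1 q (u * Complex.exp 0) - D.b (-(q : ZMod D.k))‖ ≤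
        C * ‖deriv (fun w : ℂ => G1 q (u * Complex.exp w)) 0‖
      rw [h1, Complex.exp_zero, mul_one, ← hH.sys.val q hqk]
      obtain ⟨-, h2⟩ := hK (G1 q) 0 (Real.exp (-(3 * (1 / 20)))) (Real.exp_pos _) (hA1 q hqk) (hA2 q hqk)
      obtain ⟨-, h3, h4, -⟩ := h2 u (by
        rw [mem_ball_zero_iff]
        linarith)
      rw [sub_zero] at h4
      refine h4.trans ?_
      rw [norm_mul]
      have h5 : K * ‖u‖ * ‖deriv (G1 q) 0‖ ≤ K * ‖u‖ * (K * ‖deriv (G1 q) u‖) :=
        mul_le_mul_of_nonneg_left h3 (by positivity)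
      refine h5.trans ?_
      have h6 : K * ‖u‖ * (K * ‖deriv (G1 q) u‖) = K ^ 2 * (‖deriv (G1 q) u‖ * ‖u‖) := by ring
      rw [h6]
      have h7 : K ^ 2 ≤ C := by rw [hCdef]; linarith
      exact mul_le_mul_of_nonneg_right h7 (by positivity)
  exact ⟨_, _, _, hmain⟩

end V3S
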